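import Pool.Agent.AKU.Eng

set_option autoImplicit false

/-!
# Rooted certificates: all orders of the three free points
-/

namespace Pool.Agent.AKU

open Finset

theorem na_rvd {d : Nat} (hd : d < 8) : na (rvd d) = na d := by
  interval_cases d <;> decide

theorem rvd_lt (d : Nat) : rvd d < 8 := Nat.mod_lt _ (by norm_num)

theorem dg0_lt (s : Nat) : dg0 s < 8 := Nat.mod_lt _ (by norm_num)
theorem dg1_lt (s : Nat) : dg1 s < 8 := Nat.mod_lt _ (by norm_num)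
theorem dg2_lt (s : Nat) : dg2 s < 8 := Nat.mod_lt _ (by norm_num)

theorem dg0_mk {a b c : Nat} (ha : a < 8) : dg0 (a + 8 * b + 64 * c) = a := by
  unfold dg0; omega

theorem dg1_mk {a b c : Nat} (ha : a < 8) (hb : b < 8) : dg1 (a + 8 * b + 64 * c) = b := by
  unfold dg1
  rw [Nat.shiftRight_eq_div_pow]
  omega

theorem dg2_mk {a b c : Nat} (ha : a < 8) (hb : b < 8) (hc : c < 8) :
    dg2 (a + 8 * b + 64 * c) = c := by
  unfold dg2
  rw [Nat.shiftRight_eq_div_pow]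
  omega

theorem dg0_rv3 (s : Nat) : dg0 (rv3 s) = rvd (dg0 s) := dg0_mk (rvd_lt _)
theorem dg1_rv3 (s : Nat) : dg1 (rv3 s) = rvd (dg1 s) := dg1_mk (rvd_lt _) (rvd_lt _)
theorem dg2_rv3 (s : Nat) : dg2 (rv3 s) = rvd (dg2 s) :=
  dg2_mk (rvd_lt _) (rvd_lt _) (rvd_lt _)

theorem na0_rv3 (s : Nat) : na (dg0 (rv3 s)) = na (dg0 s) := by
  rw [dg0_rv3, na_rvd (dg0_lt s)]
theorem na1_rv3 (s : Nat) : na (dg1 (rv3 s)) = na (dg1 s) := by
  rw [dg1_rv3, na_rvd (dg1_lt s)]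
theorem na2_rv3 (s : Nat) : na (dg2 (rv3 s)) = na (dg2 s) := by
  rw [dg2_rv3, na_rvd (dg2_lt s)]

namespace Tb

variable (T : Tb)

/-- the certificate function at an ordered triple of free points: types `p1 p2 p3`, codes of the
pairs `(y1, y2)`, `(y1, y3)`, `(y2, y3)`, non-acute indicator `n` of the triple -/
noncomputable def GV (p1 p2 p3 c12 c13 c23 n : Nat) : ℤ :=
  T.Q0 p1 p2 + T.Qt p1 (T.fl p1 p2 c12) (T.fl p1 p3 c13) + T.EX p1 p2 c12 p3 +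
    (T.mu p1 : ℤ) * (4 - 9 * n) +
    ((T.nu 0 p1 : ℤ) * (4 - 9 * na (dg0 c23)) + T.nu 1 p1 * (4 - 9 * na (dg1 c23)) +
      T.nu 2 p1 * (4 - 9 * na (dg2 c23)))

/-- the configuration of three free points -/
structure Cf (N : Nat) {ι : Type*} (τ : ι → Nat) (c : ι → ι → Nat) (d : ι → ι → ι → Nat)
    (F : Set ι) : Prop where
  ty : ∀ x ∈ F, τ x < N
  lt : ∀ x ∈ F, ∀ y ∈ F, x ≠ y → c x y < 512
  vp : ∀ x ∈ F, ∀ y ∈ F, x ≠ y → T.vp (τ x) (τ y) (c x y) = true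
  rv : ∀ x ∈ F, ∀ y ∈ F, x ≠ y → c y x = rv3 (c x y)
  dlt : ∀ x ∈ F, ∀ y ∈ F, ∀ z ∈ F, x ≠ y → y ≠ z → x ≠ z → d x y z < 8
  tst : ∀ x ∈ F, ∀ y ∈ F, ∀ z ∈ F, x ≠ y → y ≠ z → x ≠ z →
    T.tst (c x y) (c x z) (c y z) (d x y z) = true
  na1 : ∀ x ∈ F, ∀ y ∈ F, ∀ z ∈ F, x ≠ y → y ≠ z → x ≠ z → na (d x y z) = na (d x z y)
  na2 : ∀ x ∈ F, ∀ y ∈ F, ∀ z ∈ F, x ≠ y → y ≠ z → x ≠ z → na (d x y z) = na (d y x z)

variable {T}

/-- sum over the six orders -/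
def s6 {ι : Type*} (g : ι → ι → ι → ℤ) (x y z : ι) : ℤ :=
  g x y z + g x z y + g y x z + g y z x + g z x y + g z y x

variable (T) in
/-- the certificate function at three points -/
noncomputable def GF {ι : Type*} (τ : ι → Nat) (c : ι → ι → Nat) (d : ι → ι → ι → Nat) (x y z : ι) : ℤ :=
  T.GV (τ x) (τ y) (τ z) (c x y) (c x z) (c y z) (na (d x y z))

theorem s6_eq {N : Nat} {ι : Type*} {τ : ι → Nat} {c : ι → ι → Nat} {d : ι → ι → ι → Nat}
    {F : Set ι} (h : T.Cf N τ c d F) (hQ0 : ∀ p q, T.Q0 p q = T.Q0 q p)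
    (hQt : ∀ p i j, T.Qt p i j = T.Qt p j i)
    (hlam : ∀ p q s, s < 512 → T.lam q p (rv3 s) = T.lam p q s) {x y z : ι} (hx : x ∈ F) (hy : y ∈ F) (hz : z ∈ F)
    (hxy : x ≠ y) (hyz : y ≠ z) (hxz : x ≠ z) :
    s6 (T.GF τ c d) x y z =
      2 * T.VV (τ x) (τ y) (τ z) (c x y) (c x z) (c y z) (na (d x y z)) := by
  have r1 := h.rv x hx y hy hxy
  have r2 := h.rv x hx z hz hxz
  have r3 := h.rv y hy z hz hyz
  -- all orders of d
  have e1 : na (d x z y) = na (d x y z) := (h.na1 x hx y hy z hz hxy hyz hxz).symm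
  have e2 : na (d y x z) = na (d x y z) := (h.na2 x hx y hy z hz hxy hyz hxz).symm
  have e3 : na (d y z x) = na (d x y z) := by
    rw [← h.na1 y hy x hx z hz hxy.symm hxz hyz, e2]
  have e4 : na (d z x y) = na (d x y z) := by
    rw [← h.na2 x hx z hz y hy hxz hyz.symm hxy, e1]
  have e5 : na (d z y x) = na (d x y z) := by
    rw [← h.na1 z hz x hx y hy hxz.symm hxy hyz.symm, e4]
  unfold s6 GF GV VV
  rw [e1, e2, e3, e4, e5, r1, r2, r3]
  simp only [na0_rv3, na1_rv3, na2_rv3]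
  unfold EX
  rw [hlam _ _ _ (h.lt x hx y hy hxy), hlam _ _ _ (h.lt x hx z hz hxz),
    hlam _ _ _ (h.lt y hy z hz hyz)]
  rw [hQ0 (τ y) (τ x), hQ0 (τ z) (τ x), hQ0 (τ z) (τ y)]
  rw [hQt (τ x) (T.fl (τ x) (τ z) (c x z)) (T.fl (τ x) (τ y) (c x y)),
    hQt (τ y) (T.fl (τ y) (τ z) (c y z)) (T.fl (τ y) (τ x) (rv3 (c x y))),
    hQt (τ z) (T.fl (τ z) (τ y) (rv3 (c y z))) (T.fl (τ z) (τ x) (rv3 (c x z)))]
  ring

theorem s6_perm1 {ι : Type*} (g : ι → ι → ι → ℤ) (x y z : ι) : s6 g x y z = s6 g y x z := by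
  unfold s6; ring

theorem s6_perm2 {ι : Type*} (g : ι → ι → ι → ℤ) (x y z : ι) : s6 g x y z = s6 g x z y := by
  unfold s6; ring

/-- **All orders**: if `VV ≤ 0` for sorted types then the symmetrised certificate function is at
most zero at all triples of different free points. -/
theorem s6_le {N : Nat} {ι : Type*} {τ : ι → Nat} {c : ι → ι → Nat} {d : ι → ι → ι → Nat}
    {F : Set ι} (h : T.Cf N τ c d F) (hQ0 : ∀ p q, T.Q0 p q = T.Q0 q p)
    (hQt : ∀ p i j, T.Qt p i j = T.Qt p j i)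
    (hlam : ∀ p q s, s < 512 → T.lam q p (rv3 s) = T.lam p q s)
    (hK : ∀ p q r A B C d, p ≤ q → q ≤ r → r < N → A < 512 → B < 512 → C < 512 →
      T.vp p q A = true → T.vp p r B = true → T.vp q r C = true → d < 8 →
      T.tst A B C d = true → T.VV p q r A B C (na d) ≤ 0)
    {x y z : ι} (hx : x ∈ F) (hy : y ∈ F) (hz : z ∈ F)
    (hxy : x ≠ y) (hyz : y ≠ z) (hxz : x ≠ z) : s6 (T.GF τ c d) x y z ≤ 0 := by
  have key : ∀ x ∈ F, ∀ y ∈ F, ∀ z ∈ F, x ≠ y → y ≠ z → x ≠ z → τ x ≤ τ y → τ y ≤ τ z →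
      s6 (T.GF τ c d) x y z ≤ 0 := by
    intro x hx y hy z hz hxy hyz hxz h1 h2
    rw [s6_eq h hQ0 hQt hlam hx hy hz hxy hyz hxz]
    have := hK (τ x) (τ y) (τ z) (c x y) (c x z) (c y z) (d x y z) h1 h2 (h.ty z hz)
      (h.lt x hx y hy hxy) (h.lt x hx z hz hxz) (h.lt y hy z hz hyz) (h.vp x hx y hy hxy)
      (h.vp x hx z hz hxz) (h.vp y hy z hz hyz) (h.dlt x hx y hy z hz hxy hyz hxz)
      (h.tst x hx y hy z hz hxy hyz hxz)
    linarith
  rcases le_total (τ x) (τ y) with h1 | h1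
  · rcases le_total (τ y) (τ z) with h2 | h2
    · exact key x hx y hy z hz hxy hyz hxz h1 h2
    · rcases le_total (τ x) (τ z) with h3 | h3
      · rw [s6_perm2]
        exact key x hx z hz y hy hxz hyz.symm hxy h3 h2
      · rw [s6_perm2, s6_perm1]
        exact key z hz x hx y hy hxz.symm hxy hyz.symm h3 h1
  · rcases le_total (τ x) (τ z) with h2 | h2
    · rw [s6_perm1]
      exact key y hy x hx z hz hxy.symm hxz hyz h1 h2
    · rcases le_total (τ y) (τ z) with h3 | h3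
      · rw [s6_perm1, s6_perm2]
        exact key y hy z hz x hx hyz hxz.symm hxy.symm h3 h2
      · rw [s6_perm1, s6_perm2, s6_perm1]
        exact key z hz y hy x hx hyz.symm hxy.symm hxz.symm h3 h1

end Tb

end Pool.Agent.AKU
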