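import Mathlib

set_option autoImplicit false

/-!
# Rooted certificates: the engine

Three roots and three free points.  A free point has a type `p < nt`; a pair of free points of
types `p`, `q` has a code `s < 512`, whose three octal digits are the states of the triples
(root, first point, second point); the state of a triple is a number `d < 8` with `d % 4 = 0` iff
the triangle is acute.
-/

namespace Pool.Agent.AKU

open Finset

/-- record of a pair of free points: code, its digits, pattern of the non-acute triples, flag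
index of the second point seen from the first, flag index of the first seen from the second,
the rows of these flags, multiplier of the mass row -/
structure Rc where
  s : Nat
  a : Nat
  b : Nat
  c : Nat
  n : Nat
  f : Nat
  g : Nat
  u : Nat
  w : Nat
  m : Nat

/-- digits of a code -/
def dg0 (s : Nat) : Nat := s % 8
def dg1 (s : Nat) : Nat := (s >>> 3) % 8
def dg2 (s : Nat) : Nat := (s >>> 6) % 8

/-- is the triangle non-acute? (0 or 1) -/
def na (d : Nat) : Nat := if d % 4 = 0 then 0 else 1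

/-- state of the triple with the last two points exchanged -/
def rvd (d : Nat) : Nat := (5017068 >>> (3 * d)) % 8

/-- code of the exchanged pair -/
def rv3 (s : Nat) : Nat := rvd (dg0 s) + 8 * rvd (dg1 s) + 64 * rvd (dg2 s)

/-- flag index from a list of records -/
noncomputable def fs (l : List Rc) (s : Nat) : Nat :=
  List.rec (motive := fun _ => Nat) 99999
    (fun x _ ih => Bool.rec (motive := fun _ => Nat) ih x.f (Nat.beq x.s s)) l

/-- entry of a packed row -/
def lk (P k : Nat) : Nat := Nat.mod (Nat.shiftRight P (Nat.mul 32 k)) 4294967296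

/-- row of a matrix -/
noncomputable def nthL (l : List Nat) (i : Nat) : Nat :=
  List.rec (motive := fun _ => Nat → Nat) (fun _ => 0)
    (fun x _ ih i => Nat.rec (motive := fun _ => Nat) x (fun k _ => ih k) i) l i

/-- the data of a certificate -/
structure Tb where
  nt : Nat
  TAB : Nat
  vp : Nat → Nat → Nat → Bool
  E : Nat → Nat → List Rc
  nb : Nat → Nat
  blk : Nat → List Nat
  off : Nat
  q0 : Nat → Nat → Nat
  off0 : Nat
  mu : Nat → Nat
  nu : Nat → Nat → Nat
  lam : Nat → Nat → Nat → Nat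
  im : Nat → Nat
  bn : Nat
  bd : Nat

namespace Tb

variable (T : Tb)

noncomputable def fl (p q s : Nat) : Nat := fs (T.E p q) s

def Q0 (p q : Nat) : ℤ := if p < T.nt ∧ q < T.nt then (T.q0 p q : ℤ) - T.off0 else 0

noncomputable def Qt (p i j : Nat) : ℤ :=
  if i < T.nb p ∧ j < T.nb p then (lk (nthL (T.blk p) i) j : ℤ) - T.off else 0

/-- the mass row: `s` code of the pair of types `p`, `q`; `r` type of the third point -/
def EX (p q s r : Nat) : ℤ := (T.lam p q s : ℤ) * (T.bn - T.bd * T.im r)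

/-- the certificate function at three free points of types `p, q, r`, with pair codes `A, B, C`
and non-acute indicator `n` -/
noncomputable def VV (p q r A B C n : Nat) : ℤ :=
  (T.Q0 p q + T.Q0 p r + T.Q0 q r) +
  (T.Qt p (T.fl p q A) (T.fl p r B) + T.Qt q (T.fl q p (rv3 A)) (T.fl q r C) +
    T.Qt r (T.fl r p (rv3 B)) (T.fl r q (rv3 C))) +
  (T.EX p q A r + T.EX p r B q + T.EX q r C p) +
  ((T.mu p : ℤ) + T.mu q + T.mu r) * (4 - 9 * n) +
  ((T.nu 0 p : ℤ) * (4 - 9 * na (dg0 C)) + T.nu 1 p * (4 - 9 * na (dg1 C)) +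
    T.nu 2 p * (4 - 9 * na (dg2 C)) +
   (T.nu 0 q * (4 - 9 * na (dg0 B)) + T.nu 1 q * (4 - 9 * na (dg1 B)) +
    T.nu 2 q * (4 - 9 * na (dg2 B))) +
   (T.nu 0 r * (4 - 9 * na (dg0 A)) + T.nu 1 r * (4 - 9 * na (dg1 A)) +
    T.nu 2 r * (4 - 9 * na (dg2 A))))

/-- the three tests with the state `d` of the triple of free points -/
def tst (A B C d : Nat) : Bool :=
  T.TAB.testBit (512 * dg0 A + 64 * dg0 B + 8 * dg0 C + d) &&
  T.TAB.testBit (512 * dg1 A + 64 * dg1 B + 8 * dg1 C + d) &&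
  T.TAB.testBit (512 * dg2 A + 64 * dg2 B + 8 * dg2 C + d)

end Tb

/-! ### loops -/

noncomputable def allL (l : List Rc) (g : Rc → Bool) : Bool :=
  List.rec (motive := fun _ => Bool) true
    (fun x _ ih => Bool.rec (motive := fun _ => Bool) false ih (g x)) l

theorem allL_iff {l : List Rc} {g : Rc → Bool} : allL l g = true ↔ ∀ x ∈ l, g x = true := by
  induction l with
  | nil => simp [allL]
  | cons x l ih =>
    have : allL (x :: l) g = Bool.rec (motive := fun _ => Bool) false (allL l g) (g x) := rfl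
    rw [this, List.forall_mem_cons]
    cases g x
    · simp
    · simp [ih]

noncomputable def allN (n : Nat) (g : Nat → Bool) : Bool :=
  Nat.rec (motive := fun _ => Bool) true
    (fun k ih => Bool.rec (motive := fun _ => Bool) false ih (g k)) n

theorem allN_iff {n : Nat} {g : Nat → Bool} : allN n g = true ↔ ∀ k < n, g k = true := by
  induction n with
  | zero => simp [allN]
  | succ n ih =>
    have : allN (n + 1) g = Bool.rec (motive := fun _ => Bool) false (allN n g) (g n) := rfl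
    rw [this]
    constructor
    · intro h k hk
      cases hg : g n
      · rw [hg] at h; simp at h
      · rw [hg] at h
        rcases Nat.lt_succ_iff_lt_or_eq.1 hk with h' | rfl
        · exact ih.1 h k h'
        · exact hg
    · intro h
      rw [h n (Nat.lt_succ_self n)]
      exact ih.2 fun k hk => h k (Nat.lt_succ_of_lt hk)

/-- mask of the states `d` allowed by the three roots -/
def msk (t0 t1 t2 : Nat) (C : Rc) : Nat :=
  Nat.land (Nat.land (Nat.shiftRight t0 (Nat.mul 8 C.a)) (Nat.shiftRight t1 (Nat.mul 8 C.b)))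
    (Nat.land (Nat.shiftRight t2 (Nat.mul 8 C.c)) 255)

/-- `jl, jr`: coefficients of the mass rows of the pair, left and right -/
noncomputable def chkC (t0 t1 t2 rq rr L R pen wp jl jr : Nat) (LC : List Rc) : Bool :=
  allL LC fun C =>
    Bool.rec (motive := fun _ => Bool)
      (Nat.ble (Nat.add (Nat.add L (Nat.mul jl C.m)) (Nat.add (lk rq C.f) (lk rr C.g)))
        (Nat.add (Nat.add R (Nat.mul jr C.m)) (lk wp C.n)))
      (Bool.rec (motive := fun _ => Bool)
        (Nat.ble (Nat.add (Nat.add L (Nat.mul jl C.m)) (Nat.add (lk rq C.f) (lk rr C.g)))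
          (Nat.add (Nat.add (Nat.add R (Nat.mul jr C.m)) (lk wp C.n)) pen))
        true (Nat.beq (msk t0 t1 t2 C) 0))
      (Nat.beq (Nat.land (msk t0 t1 t2 C) 17) 0)

noncomputable def chkB (t0 t1 t2 rp rq L R pen wp wq jl jr kl kr : Nat) (LB LC : List Rc) :
    Bool :=
  allL LB fun B =>
    chkC (Nat.shiftRight t0 (Nat.mul 64 B.a)) (Nat.shiftRight t1 (Nat.mul 64 B.b))
      (Nat.shiftRight t2 (Nat.mul 64 B.c)) rq B.w
      (Nat.add (Nat.add L (lk rp B.f)) (Nat.mul kl B.m))
      (Nat.add (Nat.add R (lk wq B.n)) (Nat.mul kr B.m)) pen wp jl jr LC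

/-- `wp, wq, wr`: packed root penalties -/
noncomputable def chkA (TAB L R pen wp wq wr jl jr kl kr ml mr : Nat)
    (LA LB LC : List Rc) : Bool :=
  allL LA fun A =>
    chkB (Nat.shiftRight TAB (Nat.mul 512 A.a)) (Nat.shiftRight TAB (Nat.mul 512 A.b))
      (Nat.shiftRight TAB (Nat.mul 512 A.c)) A.u A.w (Nat.add L (Nat.mul ml A.m))
      (Nat.add (Nat.add R (lk wr A.n)) (Nat.mul mr A.m)) pen wp wq jl jr kl kr LB LC

/-- pattern of the non-acute triples -/
def pat (s : Nat) : Nat := na (dg0 s) + 2 * na (dg1 s) + 4 * na (dg2 s)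

namespace Tb

variable (T : Tb)

/-- the records are right -/
structure Ok (wn : Nat → Nat) : Prop where
  mem : ∀ p q, p ≤ q → q < T.nt → ∀ s < 512, T.vp p q s = true → ∃ x ∈ T.E p q,
    x.a = dg0 s ∧ x.b = dg1 s ∧ x.c = dg2 s ∧ x.n = pat s ∧ x.f = T.fl p q s ∧
      x.g = T.fl q p (rv3 s) ∧ x.f < T.nb p ∧ x.g < T.nb q ∧ x.u = nthL (T.blk p) x.f ∧
      x.w = nthL (T.blk q) x.g ∧ x.m = T.lam p q s
  pen : ∀ p < T.nt, ∀ n < 8, lk (wn p) n =
    9 * (T.nu 0 p * (n % 2) + T.nu 1 p * (n / 2 % 2) + T.nu 2 p * (n / 4))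
  bnd : T.bn ≤ T.bd
  im1 : ∀ p, T.im p = 0 ∨ T.im p = 1

/-- coefficient of a mass row on the left (`im = 0`) -/
def cl (r : Nat) : Nat := T.bn * (1 - T.im r)
/-- coefficient of a mass row on the right (`im = 1`) -/
def cr (r : Nat) : Nat := (T.bd - T.bn) * T.im r

/-- the check for three types -/
noncomputable def chkT (wn : Nat → Nat) (p q r : Nat) : Bool :=
  chkA T.TAB
    (4 * (T.mu p + T.mu q + T.mu r) + 4 * ((T.nu 0 p + T.nu 1 p + T.nu 2 p) +
      (T.nu 0 q + T.nu 1 q + T.nu 2 q) + (T.nu 0 r + T.nu 1 r + T.nu 2 r)) +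
      (T.q0 p q + T.q0 p r + T.q0 q r))
    (3 * T.off0 + 3 * T.off) (9 * (T.mu p + T.mu q + T.mu r)) (wn p) (wn q) (wn r)
    (T.cl p) (T.cr p) (T.cl q) (T.cr q) (T.cl r) (T.cr r)
    (T.E p q) (T.E p r) (T.E q r)

theorem EX_eq {wn : Nat → Nat} (ho : T.Ok wn) (p q s r : Nat) :
    T.EX p q s r = (T.cl r : ℤ) * T.lam p q s - T.cr r * T.lam p q s := by
  unfold EX cl cr
  have hb := ho.bnd
  rcases ho.im1 r with h | h
  · rw [h]; push_cast; ring
  · rw [h]
    push_cast [Nat.cast_sub hb]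
    ring

theorem testBit_msk (t0 t1 t2 : Nat) (C : Rc) (d : Nat) (hd : d < 8) :
    (msk t0 t1 t2 C).testBit d = (t0.testBit (8 * C.a + d) && t1.testBit (8 * C.b + d) &&
      t2.testBit (8 * C.c + d)) := by
  have e : msk t0 t1 t2 C = ((t0 >>> (8 * C.a)) &&& (t1 >>> (8 * C.b))) &&&
    ((t2 >>> (8 * C.c)) &&& 255) := rfl
  have h255 : (255 : Nat).testBit d = true := by
    interval_cases d <;> decide
  rw [e]
  simp only [Nat.testBit_and, Nat.testBit_shiftRight, h255, Bool.and_true]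

theorem msk_ne {t0 t1 t2 : Nat} {C : Rc} {d : Nat} (hd : d < 8)
    (h : (msk t0 t1 t2 C).testBit d = true) :
    Nat.beq (msk t0 t1 t2 C) 0 = false ∧
      (d % 4 = 0 → Nat.beq (Nat.land (msk t0 t1 t2 C) 17) 0 = false) := by
  have key : ∀ m : Nat, m.testBit d = true → Nat.beq m 0 = false := by
    intro m hm
    rw [Bool.eq_false_iff]
    intro h0
    have : m = 0 := Nat.eq_of_beq_eq_true h0
    rw [this] at hm
    simp at hm
  refine ⟨key _ h, fun h4 => key _ ?_⟩
  have e : Nat.land (msk t0 t1 t2 C) 17 = (msk t0 t1 t2 C) &&& 17 := rfl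
  rw [e, Nat.testBit_and, h, Bool.true_and]
  have : d = 0 ∨ d = 4 := by omega
  rcases this with rfl | rfl <;> decide

theorem na_le (d : Nat) : na d ≤ 1 := by
  unfold na; split_ifs <;> norm_num

theorem pat_lt (s : Nat) : pat s < 8 := by
  have h0 := na_le (dg0 s)
  have h1 := na_le (dg1 s)
  have h2 := na_le (dg2 s)
  unfold pat
  omega

theorem pen_eq {wn : Nat → Nat} (ho : T.Ok wn) {p : Nat} (hp : p < T.nt) (s : Nat) :
    lk (wn p) (pat s) = 9 * (T.nu 0 p * na (dg0 s) + T.nu 1 p * na (dg1 s) +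
      T.nu 2 p * na (dg2 s)) := by
  rw [ho.pen p hp _ (pat_lt s)]
  have h0 := na_le (dg0 s)
  have h1 := na_le (dg1 s)
  have h2 := na_le (dg2 s)
  have e0 : pat s % 2 = na (dg0 s) := by unfold pat; omega
  have e1 : pat s / 2 % 2 = na (dg1 s) := by unfold pat; omega
  have e2 : pat s / 4 = na (dg2 s) := by unfold pat; omega
  rw [e0, e1, e2]

/-- **Soundness of the main check** -/
theorem chkT_sound {wn : Nat → Nat} (ho : T.Ok wn) {p q r : Nat} (hpq : p ≤ q) (hqr : q ≤ r)
    (hr : r < T.nt) (h : T.chkT wn p q r = true) {A B C d : Nat} (hA : A < 512) (hB : B < 512)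
    (hC : C < 512) (vA : T.vp p q A = true) (vB : T.vp p r B = true) (vC : T.vp q r C = true)
    (hd : d < 8) (ht : T.tst A B C d = true) : T.VV p q r A B C (na d) ≤ 0 := by
  have hp : p < T.nt := by omega
  have hq : q < T.nt := by omega
  obtain ⟨x, hx, xa, xb, xc, xn, xf, xg, xf', xg', xu, xw, xm⟩ := ho.mem p q hpq hq A hA vA
  obtain ⟨y, hy, ya, yb, yc, yn, yf, yg, yf', yg', yu, yw, ym⟩ :=
    ho.mem p r (hpq.trans hqr) hr B hB vB
  obtain ⟨z, hz, za, zb, zc, zn, zf, zg, zf', zg', zu, zw, zm⟩ := ho.mem q r hqr hr C hC vC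
  have h1 := allL_iff.1 (allL_iff.1 (allL_iff.1 h x hx) y hy) z hz
  have hm := msk_ne (t0 := Nat.shiftRight (Nat.shiftRight T.TAB (Nat.mul 512 x.a)) (Nat.mul 64 y.a))
    (t1 := Nat.shiftRight (Nat.shiftRight T.TAB (Nat.mul 512 x.b)) (Nat.mul 64 y.b))
    (t2 := Nat.shiftRight (Nat.shiftRight T.TAB (Nat.mul 512 x.c)) (Nat.mul 64 y.c)) (C := z) hd (by
      rw [testBit_msk _ _ _ _ _ hd]
      have e : ∀ u v w : Nat, (Nat.shiftRight (Nat.shiftRight T.TAB (Nat.mul 512 u))
          (Nat.mul 64 v)).testBit (8 * w + d) = T.TAB.testBit (512 * u + 64 * v + 8 * w + d) := by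
        intro u v w
        show ((T.TAB >>> (512 * u)) >>> (64 * v)).testBit (8 * w + d) = _
        rw [Nat.testBit_shiftRight, Nat.testBit_shiftRight]
        congr 1
        ring
      rw [e, e, e, xa, xb, xc, ya, yb, yc, za, zb, zc]
      exact ht)
  set M1 := lk x.u y.f with hM1
  set M2 := lk x.w z.f with hM2
  set M3 := lk y.w z.g with hM3
  have q1 : T.Qt p (T.fl p q A) (T.fl p r B) = (M1 : ℤ) - T.off := by
    unfold Qt
    rw [← xf, ← yf, if_pos ⟨xf', yf'⟩, hM1, xu]
  have q2 : T.Qt q (T.fl q p (rv3 A)) (T.fl q r C) = (M2 : ℤ) - T.off := by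
    unfold Qt
    rw [← xg, ← zf, if_pos ⟨xg', zf'⟩, hM2, xw]
  have q3 : T.Qt r (T.fl r p (rv3 B)) (T.fl r q (rv3 C)) = (M3 : ℤ) - T.off := by
    unfold Qt
    rw [← yg, ← zg, if_pos ⟨yg', zg'⟩, hM3, yw]
  have c1 : T.Q0 p q = (T.q0 p q : ℤ) - T.off0 := if_pos ⟨hp, hq⟩
  have c2 : T.Q0 p r = (T.q0 p r : ℤ) - T.off0 := if_pos ⟨hp, hr⟩
  have c3 : T.Q0 q r = (T.q0 q r : ℤ) - T.off0 := if_pos ⟨hq, hr⟩
  have w1 := T.pen_eq ho hp C
  have w2 := T.pen_eq ho hq B
  have w3 := T.pen_eq ho hr A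
  rw [← zn] at w1
  rw [← yn] at w2
  rw [← xn] at w3
  -- the inequality
  have main : (4 * (T.mu p + T.mu q + T.mu r) + 4 * ((T.nu 0 p + T.nu 1 p + T.nu 2 p) +
      (T.nu 0 q + T.nu 1 q + T.nu 2 q) + (T.nu 0 r + T.nu 1 r + T.nu 2 r)) +
      (T.q0 p q + T.q0 p r + T.q0 q r)) + T.cl r * x.m + M1 + T.cl q * y.m + T.cl p * z.m +
        (M2 + M3) ≤
      (3 * T.off0 + 3 * T.off) + lk (wn r) x.n + T.cr r * x.m + lk (wn q) y.n + T.cr q * y.m +
        T.cr p * z.m + lk (wn p) z.n + 9 * (T.mu p + T.mu q + T.mu r) * na d := by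
    by_cases h4 : d % 4 = 0
    · have e0 : na d = 0 := if_pos h4
      rw [e0, mul_zero, add_zero]
      rw [hm.2 h4] at h1
      exact Nat.le_of_ble_eq_true h1
    · have e1 : na d = 1 := if_neg h4
      rw [e1, mul_one]
      rw [hm.1] at h1
      cases hb : Nat.beq (Nat.land (msk (Nat.shiftRight (Nat.shiftRight T.TAB (Nat.mul 512 x.a))
        (Nat.mul 64 y.a)) (Nat.shiftRight (Nat.shiftRight T.TAB (Nat.mul 512 x.b))
        (Nat.mul 64 y.b)) (Nat.shiftRight (Nat.shiftRight T.TAB (Nat.mul 512 x.c))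
        (Nat.mul 64 y.c)) z) 17) 0
      · rw [hb] at h1
        have h2 := Nat.le_of_ble_eq_true h1
        exact le_trans h2 (Nat.le_add_right _ _)
      · rw [hb] at h1
        exact Nat.le_of_ble_eq_true h1
  rw [w1, w2, w3, xm, ym, zm] at main
  unfold VV
  rw [q1, q2, q3, c1, c2, c3, T.EX_eq ho, T.EX_eq ho, T.EX_eq ho]
  have main' : (4 * ((T.mu p : ℤ) + T.mu q + T.mu r) + 4 * (((T.nu 0 p : ℤ) + T.nu 1 p + T.nu 2 p) +
      (T.nu 0 q + T.nu 1 q + T.nu 2 q) + (T.nu 0 r + T.nu 1 r + T.nu 2 r)) +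
      (T.q0 p q + T.q0 p r + T.q0 q r)) + T.cl r * T.lam p q A + M1 + T.cl q * T.lam p r B +
      T.cl p * T.lam q r C + (M2 + M3) ≤
      (3 * T.off0 + 3 * T.off) + 9 * (T.nu 0 r * na (dg0 A) + T.nu 1 r * na (dg1 A) +
      T.nu 2 r * na (dg2 A)) + T.cr r * T.lam p q A + 9 * (T.nu 0 q * na (dg0 B) +
      T.nu 1 q * na (dg1 B) + T.nu 2 q * na (dg2 B)) + T.cr q * T.lam p r B +
      T.cr p * T.lam q r C + 9 * (T.nu 0 p * na (dg0 C) + T.nu 1 p * na (dg1 C) +
      T.nu 2 p * na (dg2 C)) + 9 * (T.mu p + T.mu q + T.mu r) * na d := by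
    exact_mod_cast main
  linarith

end Tb

end Pool.Agent.AKU
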