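import Mathlib

set_option autoImplicit false

/-!
# Inner products by one multiplication
-/

namespace Pool.Agent.AKU

open Finset

/-- `k`-th digit -/
def dg (B P k : ℕ) : ℕ := P / B ^ k % B

theorem sum_dg (B P K : ℕ) : ∑ k ∈ range K, dg B P k * B ^ k + B ^ K * (P / B ^ K) = P := by
  induction K with
  | zero => simp
  | succ K ih =>
    rw [sum_range_succ, dg, pow_succ, ← Nat.div_div_eq_div_mul]
    have h := Nat.div_add_mod (P / B ^ K) B
    calc ∑ k ∈ range K, dg B P k * B ^ k + P / B ^ K % B * B ^ K +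
          B ^ K * B * (P / B ^ K / B)
        = ∑ k ∈ range K, dg B P k * B ^ k + B ^ K * (B * (P / B ^ K / B) + P / B ^ K % B) := by
          ring
      _ = P := by rw [h, ih]

theorem eq_sum_dg {B P K : ℕ} (h : P < B ^ K) : P = ∑ k ∈ range K, dg B P k * B ^ k := by
  conv_lhs => rw [← sum_dg B P K]
  rw [Nat.div_eq_of_lt h]
  simp

/-- the lower part of the product is small -/
private theorem low_le {A B K : ℕ} (hA : K * A ^ 2 ≤ B - 1) (a b : ℕ → ℕ)
    (ha : ∀ k < K, a k ≤ A) (hb : ∀ k < K, b k ≤ A) (hB : 1 ≤ B) :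
    ∑ k ∈ range K, ∑ l ∈ range K, (if k < l then a k * b l * B ^ (K - 1 - (l - k)) else 0) ≤
      B ^ (K - 1) - 1 := by
  have hg : (∑ j ∈ range (K - 1), B ^ j) * (B - 1) + 1 = B ^ (K - 1) := by
    obtain ⟨c, rfl⟩ : ∃ c, B = c + 1 := ⟨B - 1, by omega⟩
    exact geom_sum_mul_add c (K - 1)
  have h1 : ∀ k ∈ range K, ∑ l ∈ range K, (if k < l then a k * b l * B ^ (K - 1 - (l - k))
      else 0) ≤ A ^ 2 * ∑ j ∈ range (K - 1), B ^ j := by
    intro k hk
    rw [mem_range] at hk
    rw [← sum_filter]
    have h2 : ∑ l ∈ range K with k < l, a k * b l * B ^ (K - 1 - (l - k)) ≤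
        ∑ l ∈ range K with k < l, A ^ 2 * B ^ (K - 1 - (l - k)) := by
      refine sum_le_sum fun l hl => ?_
      rw [mem_filter, mem_range] at hl
      refine Nat.mul_le_mul_right _ ?_
      rw [sq]
      exact Nat.mul_le_mul (ha k hk) (hb l hl.1)
    refine h2.trans ?_
    rw [← mul_sum]
    refine Nat.mul_le_mul_left _ ?_
    have h3 : ∑ l ∈ range K with k < l, B ^ (K - 1 - (l - k)) =
        ∑ j ∈ ({l ∈ range K | k < l}).image (fun l => K - 1 - (l - k)), B ^ j := by
      rw [sum_image]
      intro l hl m hm hlm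
      rw [mem_coe, mem_filter, mem_range] at hl hm
      simp only at hlm
      omega
    rw [h3]
    refine sum_le_sum_of_subset ?_
    intro j hj
    rw [mem_image] at hj
    obtain ⟨l, hl, rfl⟩ := hj
    rw [mem_filter, mem_range] at hl
    rw [mem_range]
    omega
  refine (sum_le_sum h1).trans ?_
  rw [sum_const, card_range, smul_eq_mul, ← mul_assoc]
  have h4 : K * A ^ 2 * ∑ j ∈ range (K - 1), B ^ j ≤
      (∑ j ∈ range (K - 1), B ^ j) * (B - 1) := by
    rw [mul_comm (∑ j ∈ range (K - 1), B ^ j)]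
    exact Nat.mul_le_mul_right _ hA
  omega

/-- the middle digit of the product is the inner product -/
theorem kro {A B K : ℕ} (hA : K * A ^ 2 ≤ B - 1) (hB : 1 ≤ B) (a b : ℕ → ℕ)
    (ha : ∀ k < K, a k ≤ A) (hb : ∀ k < K, b k ≤ A) :
    (∑ k ∈ range K, a k * B ^ k) * (∑ k ∈ range K, b k * B ^ (K - 1 - k)) / B ^ (K - 1) % B =
      ∑ k ∈ range K, a k * b k := by
  rcases Nat.eq_zero_or_pos K with rfl | hK
  · simp
  set low := ∑ k ∈ range K, ∑ l ∈ range K,
    (if k < l then a k * b l * B ^ (K - 1 - (l - k)) else 0) with hlow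
  set hi := ∑ k ∈ range K, ∑ l ∈ range K,
    (if l < k then a k * b l * B ^ (k - l - 1) else 0) with hhi
  have h1 : (∑ k ∈ range K, a k * B ^ k) * (∑ k ∈ range K, b k * B ^ (K - 1 - k)) =
      low + B ^ (K - 1) * (∑ k ∈ range K, a k * b k + B * hi) := by
    rw [sum_mul_sum, hlow, hhi, mul_add, mul_sum, mul_sum, mul_sum, ← sum_add_distrib,
      ← sum_add_distrib]
    refine sum_congr rfl fun k hk => ?_
    rw [mem_range] at hk
    have h2 : B ^ (K - 1) * (a k * b k) = ∑ l ∈ range K,
        (if l = k then B ^ (K - 1) * (a k * b l) else 0) := by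
      rw [sum_ite_eq' (range K) k]
      simp [hk]
    rw [h2, mul_sum, mul_sum, ← sum_add_distrib, ← sum_add_distrib]
    refine sum_congr rfl fun l hl => ?_
    rw [mem_range] at hl
    rcases lt_trichotomy k l with h | h | h
    · rw [if_pos h, if_neg (by omega), if_neg (by omega)]
      have : B ^ (K - 1 - (l - k)) = B ^ k * B ^ (K - 1 - l) := by
        rw [← pow_add]
        congr 1
        omega
      rw [this]
      ring
    · subst h
      simp only [lt_irrefl, if_false, if_true, mul_zero, add_zero, zero_add]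
      have : B ^ (K - 1) = B ^ k * B ^ (K - 1 - k) := by
        rw [← pow_add]
        congr 1
        omega
      rw [this]
      ring
    · rw [if_neg (by omega), if_neg (by omega), if_pos h]
      have : B ^ (K - 1) * (B * B ^ (k - l - 1)) = B ^ k * B ^ (K - 1 - l) := by
        rw [← pow_succ', ← pow_add, ← pow_add]
        congr 1
        omega
      calc a k * B ^ k * (b l * B ^ (K - 1 - l)) = a k * b l * (B ^ k * B ^ (K - 1 - l)) := by
            ring
        _ = _ := by rw [← this]; ring
  have h5 := low_le hA a b ha hb hB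
  rw [← hlow] at h5
  have h6 : 0 < B ^ (K - 1) := by positivity
  have h7 : (∑ k ∈ range K, a k * b k) < B := by
    have : ∑ k ∈ range K, a k * b k ≤ ∑ k ∈ range K, A ^ 2 := by
      refine sum_le_sum fun k hk => ?_
      rw [mem_range] at hk
      rw [sq]
      exact Nat.mul_le_mul (ha k hk) (hb k hk)
    rw [sum_const, card_range, smul_eq_mul] at this
    omega
  rw [h1, Nat.add_mul_div_left _ _ h6, Nat.div_eq_of_lt (by omega), zero_add,
    Nat.add_mul_mod_self_left, Nat.mod_eq_of_lt h7]

end Pool.Agent.AKU
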