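import Pool.Agent.AKU.Kro

set_option autoImplicit false

/-!
# Positive semidefinite integer matrices: Cholesky rows plus a diagonally dominant rest, pulled
back along integer forms
-/

namespace Pool.Agent.AKU

open Finset

/-- a symmetric diagonally dominant matrix is positive semidefinite -/
theorem dom_nonneg (n : ℕ) (R : ℕ → ℕ → ℤ) (hs : ∀ a < n, ∀ b < n, R a b = R b a)
    (hd : ∀ a < n, ∑ b ∈ range n, |R a b| ≤ 2 * R a a) (z : ℕ → ℤ) :
    0 ≤ ∑ a ∈ range n, ∑ b ∈ range n, R a b * (z a * z b) := by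
  have h1 : 0 ≤ ∑ a ∈ range n, ∑ b ∈ range n,
      (if a = b then 0 else |R a b| * (z a ^ 2 + z b ^ 2) + 2 * (R a b * (z a * z b))) := by
    refine sum_nonneg fun a _ => sum_nonneg fun b _ => ?_
    split_ifs
    · exact le_refl _
    · rcases abs_cases (R a b) with ⟨h, h'⟩ | ⟨h, h'⟩
      · rw [h]; nlinarith [sq_nonneg (z a + z b)]
      · rw [h]; nlinarith [sq_nonneg (z a - z b)]
  have h2 : ∀ a ∈ range n, ∑ b ∈ range n,
      (if a = b then 0 else |R a b| * (z a ^ 2 + z b ^ 2) + 2 * (R a b * (z a * z b))) =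
      ∑ b ∈ range n, (|R a b| * (z a ^ 2 + z b ^ 2) + 2 * (R a b * (z a * z b))) -
        (|R a a| * (z a ^ 2 + z a ^ 2) + 2 * (R a a * (z a * z a))) := by
    intro a ha
    have e : |R a a| * (z a ^ 2 + z a ^ 2) + 2 * (R a a * (z a * z a)) = ∑ b ∈ range n,
        (if a = b then |R a b| * (z a ^ 2 + z b ^ 2) + 2 * (R a b * (z a * z b)) else 0) := by
      rw [sum_ite_eq]
      simp [ha]
    rw [e, ← sum_sub_distrib]
    refine sum_congr rfl fun b _ => ?_
    split_ifs <;> ring
  rw [sum_congr rfl h2, sum_sub_distrib] at h1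
  have h3 : ∑ a ∈ range n, ∑ b ∈ range n,
      (|R a b| * (z a ^ 2 + z b ^ 2) + 2 * (R a b * (z a * z b))) =
      2 * ∑ a ∈ range n, (∑ b ∈ range n, |R a b|) * z a ^ 2 +
        2 * ∑ a ∈ range n, ∑ b ∈ range n, R a b * (z a * z b) := by
    have h4 : ∑ a ∈ range n, ∑ b ∈ range n, |R a b| * z b ^ 2 =
        ∑ a ∈ range n, (∑ b ∈ range n, |R a b|) * z a ^ 2 := by
      rw [sum_comm]
      refine sum_congr rfl fun a ha => ?_
      rw [sum_mul]
      refine sum_congr rfl fun b hb => ?_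
      rw [hs b (mem_range.1 hb) a (mem_range.1 ha)]
    have h5 : ∑ a ∈ range n, ∑ b ∈ range n, |R a b| * z a ^ 2 =
        ∑ a ∈ range n, (∑ b ∈ range n, |R a b|) * z a ^ 2 :=
      sum_congr rfl fun a _ => by rw [sum_mul]
    have h6 : ∀ a b, |R a b| * (z a ^ 2 + z b ^ 2) + 2 * (R a b * (z a * z b)) =
        |R a b| * z a ^ 2 + |R a b| * z b ^ 2 + 2 * (R a b * (z a * z b)) := fun a b => by ring
    simp only [h6, sum_add_distrib, ← mul_sum]
    rw [h4, h5]
    ring
  rw [h3] at h1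
  have h7 : ∑ a ∈ range n, (∑ b ∈ range n, |R a b|) * z a ^ 2 ≤
      ∑ a ∈ range n, (2 * R a a) * z a ^ 2 :=
    sum_le_sum fun a ha => mul_le_mul_of_nonneg_right (hd a (mem_range.1 ha)) (sq_nonneg _)
  have h8 : ∑ a ∈ range n, (|R a a| * (z a ^ 2 + z a ^ 2) + 2 * (R a a * (z a * z a))) =
      2 * ∑ a ∈ range n, (2 * R a a) * z a ^ 2 := by
    rw [mul_sum]
    refine sum_congr rfl fun a ha => ?_
    have h9 : 0 ≤ R a a := by
      have := hd a (mem_range.1 ha)
      have h10 : 0 ≤ ∑ b ∈ range n, |R a b| := sum_nonneg fun _ _ => abs_nonneg _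
      linarith
    rw [abs_of_nonneg h9]
    ring
  linarith

/-- a Gram matrix is positive semidefinite -/
theorem gram_nonneg (n K : ℕ) (L : ℕ → ℕ → ℤ) (z : ℕ → ℤ) :
    0 ≤ ∑ a ∈ range n, ∑ b ∈ range n, (∑ k ∈ range K, L a k * L b k) * (z a * z b) := by
  have e : ∑ a ∈ range n, ∑ b ∈ range n, (∑ k ∈ range K, L a k * L b k) * (z a * z b) =
      ∑ k ∈ range K, (∑ a ∈ range n, L a k * z a) * (∑ a ∈ range n, L a k * z a) := by
    have h1 : ∀ a ∈ range n, ∑ b ∈ range n, (∑ k ∈ range K, L a k * L b k) * (z a * z b) =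
        ∑ k ∈ range K, (L a k * z a) * (∑ b ∈ range n, L b k * z b) := by
      intro a _
      have : ∀ b ∈ range n, (∑ k ∈ range K, L a k * L b k) * (z a * z b) =
          ∑ k ∈ range K, (L a k * z a) * (L b k * z b) := by
        intro b _
        rw [sum_mul]
        exact sum_congr rfl fun k _ => by ring
      rw [sum_congr rfl this, sum_comm]
      exact sum_congr rfl fun k _ => by rw [mul_sum]
    rw [sum_congr rfl h1, sum_comm]
    refine sum_congr rfl fun k _ => ?_
    rw [← sum_mul]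
  rw [e]
  exact sum_nonneg fun k _ => mul_self_nonneg _

/-- `N X = L Lᵀ + R` with `R` diagonally dominant -/
theorem chol_nonneg (n K : ℕ) (X : ℕ → ℕ → ℤ) (L : ℕ → ℕ → ℤ) (N : ℤ) (hN : 0 < N)
    (hs : ∀ a < n, ∀ b < n, X a b = X b a)
    (hd : ∀ a < n, ∑ b ∈ range n, |N * X a b - ∑ k ∈ range K, L a k * L b k| ≤
      2 * (N * X a a - ∑ k ∈ range K, L a k * L a k)) (z : ℕ → ℤ) :
    0 ≤ ∑ a ∈ range n, ∑ b ∈ range n, X a b * (z a * z b) := by
  have h1 := dom_nonneg n (fun a b => N * X a b - ∑ k ∈ range K, L a k * L b k) (by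
    intro a ha b hb
    beta_reduce
    rw [hs a ha b hb]
    congr 1
    exact sum_congr rfl fun k _ => mul_comm _ _) hd z
  have h2 := gram_nonneg n K L z
  have h3 : N * ∑ a ∈ range n, ∑ b ∈ range n, X a b * (z a * z b) =
      ∑ a ∈ range n, ∑ b ∈ range n,
        (N * X a b - ∑ k ∈ range K, L a k * L b k) * (z a * z b) +
      ∑ a ∈ range n, ∑ b ∈ range n, (∑ k ∈ range K, L a k * L b k) * (z a * z b) := by
    rw [mul_sum, ← sum_add_distrib]
    refine sum_congr rfl fun a _ => ?_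
    rw [mul_sum, ← sum_add_distrib]
    refine sum_congr rfl fun b _ => ?_
    ring
  have h4 : 0 ≤ N * ∑ a ∈ range n, ∑ b ∈ range n, X a b * (z a * z b) := by
    rw [h3]; exact add_nonneg h1 h2
  exact nonneg_of_mul_nonneg_right h4 hN

/-- sum over a list of numbers below `n` -/
theorem sum_count (n : ℕ) (l : List ℕ) (hl : ∀ a ∈ l, a < n) (g : ℕ → ℤ) :
    ∑ a ∈ range n, (l.count a : ℤ) * g a = (l.map g).sum := by
  induction l with
  | nil => simp
  | cons x l ih =>
    have h1 : ∀ a, ((x :: l).count a : ℤ) = l.count a + if a = x then 1 else 0 := by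
      intro a
      rw [List.count_cons]
      by_cases h : a = x
      · subst h; simp
      · have h' : ¬ x = a := fun h2 => h h2.symm
        simp [h, h']
    simp only [h1, add_mul, sum_add_distrib]
    rw [ih fun a ha => hl a (List.mem_cons_of_mem _ ha)]
    have h2 : ∑ a ∈ range n, (if a = x then (1 : ℤ) else 0) * g a = g x := by
      simp only [ite_mul, one_mul, zero_mul]
      rw [sum_ite_eq' (range n) x]
      simp [hl x List.mem_cons_self]
    rw [h2, List.map_cons, List.sum_cons, add_comm]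

/-- pullback along integer forms -/
theorem pull_nonneg {ι : Type*} [Fintype ι] (n nf : ℕ) (M : ℕ → ℕ → ℤ) (pv : ℕ → ℕ)
    (pos neg : ℕ → List ℕ) (hpos : ∀ i < n, ∀ a ∈ pos i, a < nf) (hneg : ∀ i < n, ∀ a ∈ neg i, a < nf)
    (hpv : ∀ a < nf, pv a < n)
    (hsym : ∀ i < n, ∀ j < n, M i j = M j i)
    (hrow : ∀ i < n, ∀ j < n, M i j + ((neg i).map fun a => M (pv a) j).sum =
      ((pos i).map fun a => M (pv a) j).sum)
    (hX : ∀ z : ℕ → ℤ, 0 ≤ ∑ a ∈ range nf, ∑ b ∈ range nf, M (pv a) (pv b) * (z a * z b))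
    (f : ι → ℕ) :
    0 ≤ ∑ y, ∑ y', (if f y < n ∧ f y' < n then M (f y) (f y') else 0) := by
  classical
  set φ : ℕ → ℕ → ℤ := fun a i => (pos i).count a - (neg i).count a with hφ
  have hrow' : ∀ i < n, ∀ j < n, M i j = ∑ a ∈ range nf, φ a i * M (pv a) j := by
    intro i hi j hj
    have h1 := hrow i hi j hj
    rw [← sum_count nf _ (hneg i hi), ← sum_count nf _ (hpos i hi)] at h1
    simp only [hφ, sub_mul, sum_sub_distrib]
    linarith
  have hM : ∀ i < n, ∀ j < n, M i j = ∑ a ∈ range nf, ∑ b ∈ range nf,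
      M (pv a) (pv b) * (φ a i * φ b j) := by
    intro i hi j hj
    rw [hrow' i hi j hj]
    refine sum_congr rfl fun a ha => ?_
    have ha' := hpv a (mem_range.1 ha)
    rw [hsym _ ha' j hj, hrow' j hj _ ha', mul_sum]
    refine sum_congr rfl fun b hb => ?_
    rw [hsym _ (hpv b (mem_range.1 hb)) _ ha']
    ring
  set z : ℕ → ℤ := fun a => ∑ y, (if f y < n then φ a (f y) else 0) with hz
  refine le_trans (hX z) (le_of_eq ?_)
  have e1 : ∀ a b, M (pv a) (pv b) * (z a * z b) = ∑ y, ∑ y',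
      M (pv a) (pv b) * ((if f y < n then φ a (f y) else 0) *
        (if f y' < n then φ b (f y') else 0)) := by
    intro a b
    rw [hz, sum_mul_sum, mul_sum]
    refine sum_congr rfl fun y _ => ?_
    rw [mul_sum]
  simp only [e1]
  calc ∑ a ∈ range nf, ∑ b ∈ range nf, ∑ y, ∑ y', M (pv a) (pv b) *
        ((if f y < n then φ a (f y) else 0) * (if f y' < n then φ b (f y') else 0))
      = ∑ a ∈ range nf, ∑ y, ∑ b ∈ range nf, ∑ y', M (pv a) (pv b) *
        ((if f y < n then φ a (f y) else 0) * (if f y' < n then φ b (f y') else 0)) :=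
        sum_congr rfl fun a _ => sum_comm
    _ = ∑ y, ∑ a ∈ range nf, ∑ b ∈ range nf, ∑ y', M (pv a) (pv b) *
        ((if f y < n then φ a (f y) else 0) * (if f y' < n then φ b (f y') else 0)) := sum_comm
    _ = ∑ y, ∑ a ∈ range nf, ∑ y', ∑ b ∈ range nf, M (pv a) (pv b) *
        ((if f y < n then φ a (f y) else 0) * (if f y' < n then φ b (f y') else 0)) :=
        sum_congr rfl fun y _ => sum_congr rfl fun a _ => sum_comm
    _ = ∑ y, ∑ y', ∑ a ∈ range nf, ∑ b ∈ range nf, M (pv a) (pv b) *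
        ((if f y < n then φ a (f y) else 0) * (if f y' < n then φ b (f y') else 0)) :=
        sum_congr rfl fun y _ => sum_comm
    _ = _ := by
        refine sum_congr rfl fun y _ => sum_congr rfl fun y' _ => ?_
        by_cases h1 : f y < n
        · by_cases h2 : f y' < n
          · rw [if_pos ⟨h1, h2⟩, hM _ h1 _ h2]
            simp only [h1, h2, if_true]
          · rw [if_neg (fun h => h2 h.2)]
            simp only [h2, if_false, mul_zero, sum_const_zero]
        · rw [if_neg (fun h => h1 h.1)]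
          simp only [h1, if_false, zero_mul, mul_zero, sum_const_zero]

end Pool.Agent.AKU
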