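import Pool.Agent.AKU.Psd
import Pool.Agent.AKU.Eng

set_option autoImplicit false

/-!
# Positive semidefinite blocks: the kernel check
-/

namespace Pool.Agent.AKU

open Finset

/-- a form of a block: packed Cholesky row, pivot flag, row of the pivot flag -/
structure Fm where
  v : Nat
  p : Nat
  r : Nat

/-- the expression of a flag in the forms: coefficients `1` and `-1`, with repetition -/
structure Pn where
  pos : List Nat
  neg : List Nat

noncomputable def sumN (n : Nat) (g : Nat → Nat) : Nat :=
  Nat.rec (motive := fun _ => Nat) 0 (fun k ih => Nat.add ih (g k)) n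

theorem sumN_eq (n : Nat) (g : Nat → Nat) : sumN n g = ∑ k ∈ range n, g k := by
  induction n with
  | zero => simp [sumN]
  | succ n ih =>
    have : sumN (n + 1) g = sumN n g + g n := rfl
    rw [this, ih, sum_range_succ]

noncomputable def allF {α : Type} (l : List α) (g : α → Bool) : Bool :=
  List.rec (motive := fun _ => Bool) true
    (fun x _ ih => Bool.rec (motive := fun _ => Bool) false ih (g x)) l

theorem allF_iff {α : Type} {l : List α} {g : α → Bool} :
    allF l g = true ↔ ∀ x ∈ l, g x = true := by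
  induction l with
  | nil => simp [allF]
  | cons x l ih =>
    have : allF (x :: l) g = Bool.rec (motive := fun _ => Bool) false (allF l g) (g x) := rfl
    rw [this, List.forall_mem_cons]
    cases g x
    · simp
    · simp [ih]

noncomputable def sumF {α : Type} (l : List α) (g : α → Nat) : Nat :=
  List.rec (motive := fun _ => Nat) 0 (fun x _ ih => Nat.add (g x) ih) l

theorem sumF_eq {α : Type} (l : List α) (g : α → Nat) : sumF l g = (l.map g).sum := by
  induction l with
  | nil => rfl
  | cons x l ih =>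
    have : sumF (x :: l) g = g x + sumF l g := rfl
    rw [this, ih, List.map_cons, List.sum_cons]

noncomputable def allI (l : List Nat) (g : Nat → Nat → Bool) (i : Nat) : Bool :=
  List.rec (motive := fun _ => Nat → Bool) (fun _ => true)
    (fun x _ ih i => Bool.rec (motive := fun _ => Bool) false (ih (Nat.succ i)) (g i x)) l i

theorem allI_iff {l : List Nat} {g : Nat → Nat → Bool} {i : Nat} (h : allI l g i = true) :
    ∀ k < l.length, g (i + k) (nthL l k) = true := by
  induction l generalizing i with
  | nil => simp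
  | cons x l ih =>
    have e : allI (x :: l) g i =
        Bool.rec (motive := fun _ => Bool) false (allI l g (i + 1)) (g i x) := rfl
    rw [e] at h
    cases hb : g i x
    · rw [hb] at h; simp at h
    · rw [hb] at h
      intro k hk
      cases k with
      | zero => exact hb
      | succ k =>
        have := ih h k (by simpa using hk)
        rw [show i + 1 + k = i + (k + 1) by ring] at this
        exact this

theorem sum_getD {α : Type} (l : List α) (d : α) {M : Type*} [AddCommMonoid M] (g : α → M) :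
    ∑ b ∈ range l.length, g (l.getD b d) = (l.map g).sum := by
  induction l with
  | nil => simp
  | cons x l ih =>
    rw [List.length_cons, sum_range_succ', List.map_cons, List.sum_cons, add_comm]
    simp only [List.getD_cons_zero, List.getD_cons_succ]
    rw [ih]

/-- base of the products -/
def BV : Nat := 1152921504606846976

/-- bound of the digits -/
def AV : Nat := 16777215

/-- offset of the digits -/
def OV : Nat := 8388608

/-- digit -/
def dgt (P k : Nat) : Nat := Nat.mod (Nat.shiftRight P (Nat.mul 24 k)) 16777216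

theorem dgt_le (P k : Nat) : dgt P k ≤ AV := by
  have : dgt P k < 16777216 := Nat.mod_lt _ (by norm_num)
  unfold AV
  omega

/-- the digits spread to base `BV` -/
noncomputable def fw (K P : Nat) : Nat :=
  Nat.rec (motive := fun _ => Nat) 0
    (fun k ih => Nat.add ih (Nat.shiftLeft (dgt P k) (Nat.mul 60 k))) K

/-- the same, reversed -/
noncomputable def bw (K P : Nat) : Nat :=
  Nat.rec (motive := fun _ => Nat) 0 (fun k ih => Nat.add (Nat.shiftLeft ih 60) (dgt P k)) K

theorem fw_eq (K P : Nat) : fw K P = ∑ k ∈ range K, dgt P k * BV ^ k := by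
  induction K with
  | zero => simp [fw]
  | succ K ih =>
    have e : fw (K + 1) P = fw K P + (dgt P K) <<< (60 * K) := rfl
    rw [e, ih, sum_range_succ, Nat.shiftLeft_eq, pow_mul]
    rfl

theorem bw_eq (K P : Nat) : bw K P = ∑ k ∈ range K, dgt P k * BV ^ (K - 1 - k) := by
  induction K with
  | zero => simp [bw]
  | succ K ih =>
    have e : bw (K + 1) P = (bw K P) <<< 60 + dgt P K := rfl
    rw [e, ih, sum_range_succ, Nat.shiftLeft_eq, sum_mul, show K + 1 - 1 - K = 0 by omega,
      pow_zero, mul_one]
    congr 1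
    refine sum_congr rfl fun k hk => ?_
    have hk' := mem_range.1 hk
    have e2 : K + 1 - 1 - k = K - 1 - k + 1 := by omega
    rw [e2, pow_succ, mul_assoc]
    rfl

/-- inner product; `sh = 60 (K - 1)` -/
def ipn (sh P Q : Nat) : Nat := Nat.mod (Nat.shiftRight (Nat.mul P Q) sh) 1152921504606846976

theorem ipn_eq {K : Nat} (P Q : Nat) (hK : K ≤ 4096) :
    ipn (60 * (K - 1)) (fw K P) (bw K Q) = ∑ k ∈ range K, dgt P k * dgt Q k := by
  have e : 2 ^ (60 * (K - 1)) = BV ^ (K - 1) := by rw [pow_mul]; rfl
  have hA : K * AV ^ 2 ≤ BV - 1 := by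
    have : K * AV ^ 2 ≤ 4096 * AV ^ 2 := Nat.mul_le_mul_right _ hK
    refine this.trans ?_
    decide
  show ((fw K P * bw K Q) >>> (60 * (K - 1))) % BV = _
  rw [Nat.shiftRight_eq_div_pow, e, fw_eq, bw_eq]
  exact kro hA (by decide) _ _ (fun k _ => dgt_le P k) (fun k _ => dgt_le Q k)

/-- sum of the digits -/
noncomputable def sm (K P : Nat) : Nat := sumN K fun k => dgt P k

/-- the integer vector of a form -/
def vec (P : Nat) (k : ℕ) : ℤ := (dgt P k : ℤ) - OV

theorem ip_vec {K : Nat} (P Q : Nat) (hK : K ≤ 4096) :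
    ∑ k ∈ range K, vec P k * vec Q k = (ipn (60 * (K - 1)) (fw K P) (bw K Q) : ℤ) -
      OV * (sm K P + sm K Q) + K * OV ^ 2 := by
  rw [ipn_eq P Q hK, sm, sm, sumN_eq, sumN_eq]
  push_cast
  have h : ∑ k ∈ range K, ((OV : ℤ) ^ 2) = K * OV ^ 2 := by
    rw [sum_const, card_range, nsmul_eq_mul]
  rw [← h, ← sum_add_distrib, mul_sum, ← sum_sub_distrib, ← sum_add_distrib]
  refine sum_congr rfl fun k _ => ?_
  rw [vec, vec]
  ring

/-- absolute difference -/
def adf (x y : Nat) : Nat := Nat.add (Nat.sub x y) (Nat.sub y x)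

theorem adf_eq (x y : Nat) : ((adf x y : ℕ) : ℤ) = |(x : ℤ) - y| := by
  show (((x - y) + (y - x) : ℕ) : ℤ) = _
  rcases le_total x y with h | h
  · rw [Nat.sub_eq_zero_of_le h, zero_add, Nat.cast_sub h, abs_of_nonpos (by
      have : (x : ℤ) ≤ y := by exact_mod_cast h
      linarith)]
    ring
  · rw [Nat.sub_eq_zero_of_le h, add_zero, Nat.cast_sub h, abs_of_nonneg (by
      have : (y : ℤ) ≤ x := by exact_mod_cast h
      linarith)]

/-- diagonal dominance of a row; `c = N off + K OV^2` -/
noncomputable def domR (K sh N c : Nat) (x : Fm) (l : List Fm) : Bool :=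
  Nat.ble (Nat.add (sumF l fun y =>
      adf (Nat.add (Nat.mul N (lk x.r y.p)) (Nat.mul OV (Nat.add (sm K x.v) (sm K y.v))))
      (Nat.add (ipn sh (fw K x.v) (bw K y.v)) c))
      (Nat.mul 2 (Nat.add (ipn sh (fw K x.v) (bw K x.v)) c)))
    (Nat.mul 2 (Nat.add (Nat.mul N (lk x.r x.p)) (Nat.mul OV (Nat.add (sm K x.v) (sm K x.v)))))

/-- diagonal dominance of the rows of the forms in `l'` -/
noncomputable def domC (off K N : Nat) (l' l : List Fm) : Bool :=
  allF l' fun x => domR K (60 * (K - 1)) N (N * off + K * OV ^ 2) x l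

noncomputable def symC (n : Nat) (rows : List Nat) : Bool :=
  Nat.beq rows.length n &&
    allI rows (fun i x => allI rows (fun j y => Nat.beq (lk x j) (lk y i)) 0) 0

/-- the pivot of a form -/
def pvt (l : List Fm) (a : Nat) : Nat := (l.getD a ⟨0, 0, 0⟩).p

/-- sum of the entries of the pivot rows -/
noncomputable def sumR (rows : List Nat) (l : List Fm) (c : List Nat) (j : Nat) : Nat :=
  sumF c fun a => lk (nthL rows (pvt l a)) j

/-- is the flag a pivot? -/
def triv (l : List Fm) (i : Nat) (x : Pn) : Bool :=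
  match x.pos, x.neg with
  | [a], [] => Nat.ble (a + 1) l.length && Nat.beq (pvt l a) i
  | _, _ => false

noncomputable def rowC (n off : Nat) (rows : List Nat) (l : List Fm) (i : Nat) (x : Pn) : Bool :=
  Bool.rec (motive := fun _ => Bool)
    ((allF x.pos fun a => Nat.ble (a + 1) l.length) && (allF x.neg fun a => Nat.ble (a + 1) l.length) &&
      allN n fun j => Nat.beq (lk (nthL rows i) j + sumR rows l x.neg j + off * x.pos.length)
        (sumR rows l x.pos j + off * (1 + x.neg.length))) true (triv l i x)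

def pnd (pn : List Pn) (i : Nat) : Pn := pn.getD i ⟨[], []⟩

noncomputable def rowsC (n off : Nat) (rows : List Nat) (l : List Fm) (pn : List Pn) : Bool :=
  (allF l fun x => Nat.ble (x.p + 1) n && Nat.beq x.r (nthL rows x.p)) &&
    allN n fun i => rowC n off rows l i (pnd pn i)

theorem sym_sound {n : Nat} {rows : List Nat} (h1 : symC n rows = true) {i j : Nat} (hi : i < n)
    (hj : j < n) : lk (nthL rows i) j = lk (nthL rows j) i := by
  simp only [symC, Bool.and_eq_true, Nat.beq_eq] at h1
  obtain ⟨hl, h1⟩ := h1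
  have h2 := allI_iff (allI_iff h1 i (by omega)) j (by omega)
  rw [zero_add, zero_add] at h2
  exact Nat.eq_of_beq_eq_true h2

theorem psd_sound {n off K N : Nat} {rows : List Nat} {l : List Fm} {pn : List Pn}
    (hK : K ≤ 4096) (hN : Nat.ble 1 N = true)
    (h1 : symC n rows = true) (h2 : rowsC n off rows l pn = true)
    (h4 : domC off K N l l = true)
    {ι : Type*} [Fintype ι] (f : ι → ℕ) :
    0 ≤ ∑ y, ∑ y', (if f y < n ∧ f y' < n then (lk (nthL rows (f y)) (f y') : ℤ) - off
      else 0) := by
  simp only [rowsC, Bool.and_eq_true, allF_iff, allN_iff, Nat.ble_eq, Nat.beq_eq] at h2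
  obtain ⟨h2a, h2b⟩ := h2
  have hsym : ∀ i < n, ∀ j < n, lk (nthL rows i) j = lk (nthL rows j) i :=
    fun i hi j hj => sym_sound h1 hi hj
  set M : ℕ → ℕ → ℤ := fun i j => (lk (nthL rows i) j : ℤ) - off with hM
  have hpv : ∀ a < l.length, pvt l a < n := by
    intro a ha
    have e : l.getD a ⟨0, 0, 0⟩ = l[a] := List.getD_eq_getElem l _ ha
    rw [pvt, e]
    exact (h2a _ (List.getElem_mem ha)).1
  have hmap : ∀ (c : List Nat) (j : Nat), ((c.map fun a => M (pvt l a) j).sum : ℤ) =
      (sumR rows l c j : ℤ) - off * c.length := by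
    intro c j
    rw [sumR, sumF_eq]
    induction c with
    | nil => simp
    | cons a c ih =>
      rw [List.map_cons, List.sum_cons, ih, List.map_cons, List.sum_cons, List.length_cons]
      push_cast
      rw [hM]
      ring
  have key : ∀ i < n, (∀ a ∈ (pnd pn i).pos, a < l.length) ∧
      (∀ a ∈ (pnd pn i).neg, a < l.length) ∧ ∀ j < n,
        M i j + (((pnd pn i).neg).map fun a => M (pvt l a) j).sum =
          (((pnd pn i).pos).map fun a => M (pvt l a) j).sum := by
    intro i hi
    have h := h2b i hi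
    unfold rowC at h
    cases ht : triv l i (pnd pn i)
    · rw [ht] at h
      simp only [Bool.and_eq_true, allF_iff, allN_iff, Nat.ble_eq] at h
      obtain ⟨⟨ha, hb⟩, hc⟩ := h
      refine ⟨fun a h => ha a h, fun a h => hb a h, fun j hj => ?_⟩
      have h5 := Nat.eq_of_beq_eq_true (hc j hj)
      rw [hmap, hmap]
      have h6 : (lk (nthL rows i) j : ℤ) + sumR rows l (pnd pn i).neg j +
          off * (pnd pn i).pos.length =
          sumR rows l (pnd pn i).pos j + off * (1 + (pnd pn i).neg.length) := by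
        exact_mod_cast h5
      simp only [hM]
      linarith
    · unfold triv at ht
      split at ht
      · next a hp hn =>
        rw [Bool.and_eq_true] at ht
        have ha : a < l.length := Nat.le_of_ble_eq_true ht.1
        have hb : pvt l a = i := Nat.eq_of_beq_eq_true ht.2
        refine ⟨?_, ?_, ?_⟩
        · intro b hb; rw [hp] at hb; simp at hb; rw [hb]; exact ha
        · intro b hb; rw [hn] at hb; simp at hb
        · intro j _
          rw [hp, hn]
          simp [hb]
      · exact absurd ht (by simp)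
  refine pull_nonneg n l.length M (pvt l) (fun i => (pnd pn i).pos) (fun i => (pnd pn i).neg)
    (fun i hi => (key i hi).1) (fun i hi => (key i hi).2.1) hpv
    (fun i hi j hj => by simp only [hM]; rw [hsym i hi j hj]) (fun i hi => (key i hi).2.2) ?_ f
  refine chol_nonneg l.length K (fun a b => M (pvt l a) (pvt l b))
    (fun a k => vec (l.getD a ⟨0, 0, 0⟩).v k) N (by
      have := Nat.le_of_ble_eq_true hN
      exact_mod_cast this)
    (fun a ha b hb => by simp only [hM]; rw [hsym _ (hpv a ha) _ (hpv b hb)]) ?_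
  intro a ha
  have e : l.getD a ⟨0, 0, 0⟩ = l[a] := List.getD_eq_getElem l _ ha
  have hal : l[a] ∈ l := List.getElem_mem ha
  set x := l[a] with hx
  have hxr : x.r = nthL rows x.p := (h2a x hal).2
  have hd := allF_iff.1 h4 x hal
  have hd' := Nat.le_of_ble_eq_true hd
  have e2 : ∀ b ∈ range l.length,
      |(N : ℤ) * M (pvt l a) (pvt l b) - ∑ k ∈ range K, vec (l.getD a ⟨0, 0, 0⟩).v k *
        vec (l.getD b ⟨0, 0, 0⟩).v k| =
      ((adf (N * lk x.r (l.getD b ⟨0, 0, 0⟩).p +
          OV * (sm K x.v + sm K (l.getD b ⟨0, 0, 0⟩).v))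
        (ipn (60 * (K - 1)) (fw K x.v) (bw K (l.getD b ⟨0, 0, 0⟩).v) +
          (N * off + K * OV ^ 2)) : ℕ) : ℤ) := by
    intro b hb
    have hb' := mem_range.1 hb
    have e' : l.getD b ⟨0, 0, 0⟩ = l[b] := List.getD_eq_getElem l _ hb'
    rw [adf_eq, e]
    rw [show pvt l a = x.p by rw [pvt, e], show pvt l b = l[b].p by rw [pvt, e'], e',
      ip_vec _ _ hK]
    congr 1
    simp only [hM]
    rw [← hxr]
    push_cast
    ring
  rw [sum_congr rfl e2]
  have e3 := sum_getD l ⟨0, 0, 0⟩ (fun y : Fm =>
    ((adf (N * lk x.r y.p + OV * (sm K x.v + sm K y.v))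
        (ipn (60 * (K - 1)) (fw K x.v) (bw K y.v) + (N * off + K * OV ^ 2)) : ℕ) : ℤ))
  rw [e3]
  have hd2 : (l.map fun y => adf (N * lk x.r y.p +
        OV * (sm K x.v + sm K y.v)) (ipn (60 * (K - 1)) (fw K x.v) (bw K y.v) +
          (N * off + K * OV ^ 2))).sum +
      2 * (ipn (60 * (K - 1)) (fw K x.v) (bw K x.v) + (N * off + K * OV ^ 2)) ≤
      2 * (N * lk x.r x.p + OV * (sm K x.v + sm K x.v)) := by
    rw [← sumF_eq]
    exact hd'
  have e4 : ((l.map fun y => ((adf (N * lk x.r y.p +
        OV * (sm K x.v + sm K y.v)) (ipn (60 * (K - 1)) (fw K x.v) (bw K y.v) +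
          (N * off + K * OV ^ 2)) : ℕ) : ℤ)).sum) =
      (((l.map fun y => adf (N * lk x.r y.p +
        OV * (sm K x.v + sm K y.v)) (ipn (60 * (K - 1)) (fw K x.v) (bw K y.v) +
          (N * off + K * OV ^ 2))).sum : ℕ) : ℤ) := by
    rw [Nat.cast_list_sum, List.map_map]
    rfl
  rw [e4]
  have hd3 : (((l.map fun y => adf (N * lk x.r y.p +
        OV * (sm K x.v + sm K y.v)) (ipn (60 * (K - 1)) (fw K x.v) (bw K y.v) +
          (N * off + K * OV ^ 2))).sum : ℕ) : ℤ) +
      2 * ((ipn (60 * (K - 1)) (fw K x.v) (bw K x.v) : ℤ) + (N * off + K * OV ^ 2)) ≤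
      2 * (N * (lk x.r x.p : ℤ) + OV * ((sm K x.v : ℤ) + sm K x.v)) := by
    exact_mod_cast hd2
  rw [e, ip_vec _ _ hK, show pvt l a = x.p by rw [pvt, e]]
  simp only [hM]
  rw [← hxr]
  linarith

end Pool.Agent.AKU
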