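import Pool.Agent.AKU.Eng

set_option autoImplicit false

/-!
# Rooted certificates: the records, and the main check in pieces
-/

namespace Pool.Agent.AKU

open Finset

noncomputable def memS (l : List Rc) (s : Nat) : Bool :=
  List.rec (motive := fun _ => Bool) false
    (fun x _ ih => Bool.rec (motive := fun _ => Bool) ih true (Nat.beq x.s s)) l

theorem memS_iff {l : List Rc} {s : Nat} (h : memS l s = true) : ∃ x ∈ l, x.s = s := by
  induction l with
  | nil => simp [memS] at h
  | cons x l ih =>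
    have e : memS (x :: l) s = Bool.rec (motive := fun _ => Bool) (memS l s) true (Nat.beq x.s s) :=
      rfl
    rw [e] at h
    cases hb : Nat.beq x.s s
    · rw [hb] at h
      obtain ⟨y, hy, h'⟩ := ih h
      exact ⟨y, List.mem_cons_of_mem _ hy, h'⟩
    · exact ⟨x, List.mem_cons_self, Nat.eq_of_beq_eq_true hb⟩

/-- bit of a table -/
def tb (P k : Nat) : Bool := Nat.beq (Nat.land 1 (Nat.shiftRight P k)) 1

theorem tb_eq (P k : Nat) : tb P k = P.testBit k := by
  have e : Nat.land 1 (Nat.shiftRight P k) = 1 &&& (P >>> k) := rfl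
  rw [tb, e, Nat.testBit]
  have h : 1 &&& (P >>> k) = 0 ∨ 1 &&& (P >>> k) = 1 := by
    rw [Nat.one_and_eq_mod_two]
    omega
  rcases h with h | h <;> rw [h] <;> rfl

variable (T : Tb)

noncomputable def okX (p q : Nat) (x : Rc) : Bool :=
  (((((Nat.beq x.a (dg0 x.s) && Nat.beq x.b (dg1 x.s)) && Nat.beq x.c (dg2 x.s)) &&
    (Nat.beq x.n (pat x.s) && Nat.beq x.f (T.fl p q x.s))) && (Nat.beq x.g (T.fl q p (rv3 x.s)) &&
    Nat.ble (x.f + 1) (T.nb p))) && ((Nat.ble (x.g + 1) (T.nb q) &&
    Nat.beq x.u (nthL (T.blk p) x.f)) && (Nat.beq x.w (nthL (T.blk q) x.g) &&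
    Nat.beq x.m (T.lam p q x.s))))

noncomputable def okE (p q : Nat) : Bool :=
  (allL (T.E p q) (okX T p q)) &&
    allN 512 fun s => Bool.rec (motive := fun _ => Bool) true (memS (T.E p q) s) (T.vp p q s)

/-- the records of the pairs `(p, q)`, `q ≥ p`, are right -/
noncomputable def chkRec (p : Nat) : Bool :=
  allN T.nt fun q => Bool.rec (motive := fun _ => Bool) true (okE T p q) (Nat.ble p q)

theorem ok_of_chkRec (wn : Nat → Nat) (h : ∀ p < T.nt, chkRec T p = true)
    (hw : ∀ p < T.nt, ∀ n < 8, lk (wn p) n =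
      9 * (T.nu 0 p * (n % 2) + T.nu 1 p * (n / 2 % 2) + T.nu 2 p * (n / 4)))
    (hb : T.bn ≤ T.bd) (him : ∀ p, T.im p = 0 ∨ T.im p = 1) : T.Ok wn where
  mem p q hpq hq s hs hv := by
    have h0 := allN_iff.1 (h p (by omega)) q hq
    rw [Nat.ble_eq_true_of_le hpq] at h0
    have h1 : okE T p q = true := h0
    rw [okE, Bool.and_eq_true] at h1
    have h2 := allN_iff.1 h1.2 s hs
    rw [hv] at h2
    obtain ⟨x, hx, rfl⟩ := memS_iff h2
    have h3 := allL_iff.1 h1.1 x hx
    simp only [okX, Bool.and_eq_true, Nat.beq_eq, Nat.ble_eq] at h3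
    obtain ⟨⟨⟨⟨⟨a1, a2⟩, a3⟩, a4, a5⟩, a6, a7⟩, ⟨a8, a9⟩, a10, a11⟩ := h3
    exact ⟨x, hx, a1, a2, a3, a4, a5, a6, a7, a8, a9, a10, a11⟩
  pen := hw
  bnd := hb
  im1 := him

/-- list version of `all` over natural numbers -/
noncomputable def allM (l : List Nat) (g : Nat → Bool) : Bool :=
  List.rec (motive := fun _ => Bool) true
    (fun x _ ih => Bool.rec (motive := fun _ => Bool) false ih (g x)) l

theorem allM_iff {l : List Nat} {g : Nat → Bool} : allM l g = true ↔ ∀ x ∈ l, g x = true := by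
  induction l with
  | nil => simp [allM]
  | cons x l ih =>
    have : allM (x :: l) g = Bool.rec (motive := fun _ => Bool) false (allM l g) (g x) := rfl
    rw [this, List.forall_mem_cons]
    cases g x
    · simp
    · simp [ih]

/-- the main check for `p`, all `q` in a list, all `r ≥ q` -/
noncomputable def chkQ (wn : Nat → Nat) (p : Nat) (l : List Nat) : Bool :=
  allM l fun q => allN T.nt fun r => Bool.rec (motive := fun _ => Bool) true
    (T.chkT wn p q r) (Nat.ble q r)

variable {T}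

theorem chkQ_append {wn : Nat → Nat} {p : Nat} {l l' : List Nat} (h : chkQ T wn p l = true)
    (h' : chkQ T wn p l' = true) : chkQ T wn p (l ++ l') = true := by
  unfold chkQ at *
  rw [allM_iff] at *
  intro x hx
  rcases List.mem_append.1 hx with h1 | h1
  · exact h x h1
  · exact h' x h1

theorem sound_of_chkQ {wn : Nat → Nat} (ho : T.Ok wn) {p : Nat} {l : List Nat}
    (h : chkQ T wn p l = true) {q r A B C d : Nat} (hq : q ∈ l) (hpq : p ≤ q) (hqr : q ≤ r)
    (hr : r < T.nt) (hA : A < 512) (hB : B < 512)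
    (hC : C < 512) (vA : T.vp p q A = true) (vB : T.vp p r B = true) (vC : T.vp q r C = true)
    (hd : d < 8) (ht : T.tst A B C d = true) : T.VV p q r A B C (na d) ≤ 0 := by
  have h1 := allN_iff.1 (allM_iff.1 h q hq) r hr
  rw [Nat.ble_eq_true_of_le hqr] at h1
  exact T.chkT_sound ho hpq hqr hr h1 hA hB hC vA vB vC hd ht

end Pool.Agent.AKU
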